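import Pool.Agent.Lib.MP_c0533c_co.Final

namespace Pool.Agent.Results.MP_c0533c_co.Monotone
open Pool.Agent.Lib.MP_c0533c_co

theorem result : ∀ k : ℕ, 2 ≤ k →
    (∀ n : ℕ, (∃ G : SimpleGraph (Fin n), Sat G k) ∧ ∃ G : SimpleGraph (Fin n), Sat G (k + 1)) ∧
      ∃ n0 : ℕ, ∀ n ≥ n0, h n k ≤ h n (k + 1) :=
  fun k hk => ⟨fun n => ⟨exists_sat n k hk, exists_sat n (k + 1) (by omega)⟩, mono k hk⟩

end Pool.Agent.Results.MP_c0533c_co.Monotone
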